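import Pool.Agent.EDG.Tool

set_option autoImplicit false

/-!
# Baire category: one c.e. set works densely in a cylinder (for MP_431ff4_lc)
-/

namespace Pool.Agent.EDG

open Pool.Agent.CeerI Pool.Agent.DMO

/-- Every c.e. predicate is the domain of a program. -/
theorem exists_code {α : Type} [Primcodable α] {W : α → Prop} (hW : REPred W) :
    ∃ c : Nat.Partrec.Code, ∀ a, W a ↔ (c.eval (Encodable.encode a)).Dom := by
  obtain ⟨c, hc⟩ := Nat.Partrec.Code.exists_code.1 hW
  refine ⟨c, fun a => ?_⟩
  rw [hc]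
  simp [Part.dom_iff_mem, Part.assert]

theorem re_code (c : Nat.Partrec.Code) :
    REPred fun a : ℕ × List ℕ => (c.eval (Encodable.encode a)).Dom := by
  have h1 : Partrec fun a : ℕ × List ℕ => c.eval (Encodable.encode a) :=
    Partrec.comp (Partrec.nat_iff.2 (Nat.Partrec.Code.exists_code.2 ⟨c, rfl⟩))
      Computable.encode
  exact h1.dom_re

/-- The set of a point of Cantor space. -/
def st (x : ℕ → Bool) : Set ℕ := {n | x n = true}

/-- One c.e. set works for a dense set of points of a cylinder. -/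
theorem baire (Φ : (ℕ × List ℕ → Prop) → Set ℕ → Prop)
    (h : ∀ B : Set ℕ, ∃ W, REPred W ∧ Φ W B) :
    ∃ W, REPred W ∧ ∃ P Q : Finset ℕ, Disjoint P Q ∧ ∀ P' Q' : Finset ℕ, P ⊆ P' → Q ⊆ Q' →
      Disjoint P' Q' → ∃ B : Set ℕ, (∀ a ∈ P', a ∈ B) ∧ (∀ a ∈ Q', a ∉ B) ∧ Φ W B := by
  classical
  let S : Nat.Partrec.Code → Set (ℕ → Bool) := fun c =>
    {x | Φ (fun a => (c.eval (Encodable.encode a)).Dom) (st x)}
  have hcov : ⋃ c, closure (S c) = Set.univ := by
    refine Set.eq_univ_of_forall fun x => ?_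
    obtain ⟨W, hW, hΦ⟩ := h (st x)
    obtain ⟨c, hc⟩ := exists_code hW
    have hW' : W = fun a => (c.eval (Encodable.encode a)).Dom := funext fun a => propext (hc a)
    rw [hW'] at hΦ
    exact Set.mem_iUnion.2 ⟨c, subset_closure hΦ⟩
  obtain ⟨c, x0, hx0⟩ := nonempty_interior_of_iUnion_of_closed (fun c => isClosed_closure) hcov
  obtain ⟨I, u, hu, hI⟩ := isOpen_pi_iff.1 isOpen_interior x0 hx0
  refine ⟨fun a => (c.eval (Encodable.encode a)).Dom, re_code c,
    I.filter (fun a => x0 a = true), I.filter (fun a => x0 a = false), ?_, ?_⟩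
  · rw [Finset.disjoint_left]
    intro a ha hb
    have h1 := (Finset.mem_filter.1 ha).2
    have h2 := (Finset.mem_filter.1 hb).2
    rw [h1] at h2
    exact Bool.noConfusion h2
  · intro P' Q' hP hQ hPQ
    let y : ℕ → Bool := fun a => decide (a ∈ P')
    have hy : y ∈ closure (S c) := by
      refine interior_subset (hI ?_)
      intro a ha
      have h1 : y a = x0 a := by
        cases hx : x0 a with
        | true =>
          have : a ∈ P' := hP (Finset.mem_filter.2 ⟨ha, hx⟩)
          simp [y, this]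
        | false =>
          have h2 : a ∈ Q' := hQ (Finset.mem_filter.2 ⟨ha, hx⟩)
          have : a ∉ P' := fun h3 => Finset.disjoint_left.1 hPQ h3 h2
          simp [y, this]
      rw [h1]
      exact (hu a ha).2
    have hopen : IsOpen {z : ℕ → Bool | ∀ a ∈ P' ∪ Q', z a = y a} := by
      have h1 : {z : ℕ → Bool | ∀ a ∈ P' ∪ Q', z a = y a} =
          ⋂ a ∈ P' ∪ Q', {z : ℕ → Bool | z a = y a} := by
        ext z
        simp
      rw [h1]
      refine isOpen_biInter_finset fun a _ => ?_
      exact (isOpen_discrete ({y a} : Set Bool)).preimage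
        (continuous_apply (A := fun _ : ℕ => Bool) a)
    obtain ⟨z, hz1, hz2⟩ := mem_closure_iff.1 hy _ hopen (fun a _ => rfl)
    refine ⟨st z, ?_, ?_, hz2⟩
    · intro a ha
      show z a = true
      rw [hz1 a (Finset.mem_union_left _ ha)]
      simp [y, ha]
    · intro a ha h1
      have h2 : z a = true := h1
      rw [hz1 a (Finset.mem_union_right _ ha)] at h2
      have h3 : a ∈ P' := by simpa [y] using h2
      exact Finset.disjoint_left.1 hPQ h3 ha

end Pool.Agent.EDG
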