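import Pool.Agent.EDG.Baire

set_option autoImplicit false

/-!
# The core of the proof: recovering `f b` from `f (g b)` (for MP_431ff4_lc)
-/

namespace Pool.Agent.EDG

open Pool.Agent.CeerI Pool.Agent.DMO

/-- Admissible axioms: all members in the range of `f`, none in the forbidden list. -/
def Ok (f : ℕ → ℕ) (W : ℕ × List ℕ → Prop) (fQ : List ℕ) (x : ℕ) (D : List ℕ) : Prop :=
  W (x, D) ∧ (∀ z ∈ D, z ∈ Set.range f) ∧ ∀ z ∈ D, z ∉ fQ

/-- The relation which recovers `f b` from `f (g b)`. -/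
def Rel (f : ℕ → ℕ) (W : ℕ × List ℕ → Prop) (tab tabx fP fQ : List ℕ) (p : ℕ × ℕ) : Prop :=
  Nat.pair p.1 p.2 ∈ tab ∨ (p.1 ∉ tabx ∧ ∃ E : List ℕ × List ℕ,
    (Ok f W fQ p.1 E.1 ∧ Ok f W fQ p.1 E.2) ∧ (p.2 ∈ E.1 ∧ p.2 ∈ E.2 ∧ p.2 ∉ fP) ∧
      ∀ z ∈ E.1, z ∈ E.2 → z ∈ fP ∨ z = p.2)

theorem ok_re {f : ℕ → ℕ} {W : ℕ × List ℕ → Prop} (hr : REPred fun x => x ∈ Set.range f)
    (hW : REPred W) (fQ : List ℕ) {α : Type} [Primcodable α] {x : α → ℕ} {D : α → List ℕ}
    (hx : Computable x) (hD : Computable D) : REPred fun a => Ok f W fQ (x a) (D a) := by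
  refine re_and (re_comp hW (hx.pair hD)) (re_and ?_ (dec_re ?_))
  · exact re_all hD (re_comp hr Computable.snd)
  · exact dec_all hD (dec_not (dec_mem (Computable.const fQ) Computable.snd))

theorem rel_re {f : ℕ → ℕ} {W : ℕ × List ℕ → Prop} (hr : REPred fun x => x ∈ Set.range f)
    (hW : REPred W) (tab tabx fP fQ : List ℕ) : REPred (Rel f W tab tabx fP fQ) := by
  refine re_or (dec_re (dec_mem (Computable.const tab) ?_)) (re_and (dec_re (dec_not
    (dec_mem (Computable.const tabx) Computable.fst))) ?_)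
  · exact Primrec₂.natPair.to_comp.comp Computable.fst Computable.snd
  · refine DMO.re_exists (α := ℕ × ℕ) (β := List ℕ × List ℕ)
      (p := fun q => (Ok f W fQ q.1.1 q.2.1 ∧ Ok f W fQ q.1.1 q.2.2) ∧
        (q.1.2 ∈ q.2.1 ∧ q.1.2 ∈ q.2.2 ∧ q.1.2 ∉ fP) ∧
          ∀ z ∈ q.2.1, z ∈ q.2.2 → z ∈ fP ∨ z = q.1.2)
      (re_and (re_and ?_ ?_) (dec_re (dec_and (dec_and ?_ (dec_and ?_ (dec_not ?_))) ?_)))
    · exact ok_re hr hW fQ (Computable.fst.comp Computable.fst)
        (Computable.fst.comp Computable.snd)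
    · exact ok_re hr hW fQ (Computable.fst.comp Computable.fst)
        (Computable.snd.comp Computable.snd)
    · exact dec_mem (Computable.fst.comp Computable.snd) (Computable.snd.comp Computable.fst)
    · exact dec_mem (Computable.snd.comp Computable.snd) (Computable.snd.comp Computable.fst)
    · exact dec_mem (Computable.const fP) (Computable.snd.comp Computable.fst)
    · refine dec_all (p := fun q : ((ℕ × ℕ) × (List ℕ × List ℕ)) × ℕ =>
        q.2 ∈ q.1.2.2 → q.2 ∈ fP ∨ q.2 = q.1.1.2) (Computable.fst.comp Computable.snd)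
        (dec_imp ?_ (dec_or ?_ ?_))
      · exact dec_mem (Computable.snd.comp (Computable.snd.comp Computable.fst))
          Computable.snd
      · exact dec_mem (Computable.const fP) Computable.snd
      · exact DMO.dec_eq Computable.snd (Computable.snd.comp (Computable.fst.comp
          Computable.fst))

/-- The relation `x = f (g b), y = f b` is c.e. on the range of `f`. -/
theorem core {f : ℕ → ℕ} (hf : Function.Injective f) (hr : REPred fun x => x ∈ Set.range f)
    (g : ℕ ≃ ℕ) (h : ∀ B : Set ℕ, ERed (f '' (g '' B)) (f '' B)) :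
    ∃ R : ℕ × ℕ → Prop, REPred R ∧ ∀ b y, R (f (g b), y) ↔ y = f b := by
  classical
  obtain ⟨W, hW, P, Q, hPQ, hB⟩ := baire (fun W B => ∀ x, x ∈ f '' (g '' B) ↔
    ∃ D : List ℕ, (∀ y ∈ D, y ∈ f '' B) ∧ W (x, D)) h
  have hfg : ∀ {a b : ℕ}, f (g a) = f (g b) → a = b := fun e => g.injective (hf e)
  let tab : List ℕ := (P ∪ Q).toList.map fun b => Nat.pair (f (g b)) (f b)
  let tabx : List ℕ := (P ∪ Q).toList.map fun b => f (g b)
  let fP : List ℕ := P.toList.map f
  let fQ : List ℕ := Q.toList.map f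
  have mP : ∀ b, f b ∈ fP ↔ b ∈ P := by
    intro b
    simp only [fP, List.mem_map, Finset.mem_toList]
    exact ⟨fun ⟨a, ha, e⟩ => hf e ▸ ha, fun hb => ⟨b, hb, rfl⟩⟩
  have mQ : ∀ b, f b ∈ fQ ↔ b ∈ Q := by
    intro b
    simp only [fQ, List.mem_map, Finset.mem_toList]
    exact ⟨fun ⟨a, ha, e⟩ => hf e ▸ ha, fun hb => ⟨b, hb, rfl⟩⟩
  have mX : ∀ b, f (g b) ∈ tabx ↔ b ∈ P ∪ Q := by
    intro b
    simp only [tabx, List.mem_map, Finset.mem_toList]
    exact ⟨fun ⟨a, ha, e⟩ => hfg e ▸ ha, fun hb => ⟨b, hb, rfl⟩⟩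
  have mT : ∀ b y, Nat.pair (f (g b)) y ∈ tab ↔ b ∈ P ∪ Q ∧ y = f b := by
    intro b y
    simp only [tab, List.mem_map, Finset.mem_toList]
    constructor
    · rintro ⟨a, ha, e⟩
      rw [Nat.pair_eq_pair] at e
      have := hfg e.1
      subst this
      exact ⟨ha, e.2.symm⟩
    · rintro ⟨hb, rfl⟩
      exact ⟨b, hb, rfl⟩
  -- every admissible axiom for `f (g b)` contains `f b`
  have c1 : ∀ b, b ∉ P ∪ Q → ∀ D, Ok f W fQ (f (g b)) D → f b ∈ D := by
    intro b hb D ⟨h1, h2, h3⟩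
    by_contra hcon
    have hfin : ({a | f a ∈ D.toFinset} : Set ℕ).Finite :=
      (D.toFinset.finite_toSet).preimage hf.injOn
    have hmem : ∀ a, a ∈ P ∪ hfin.toFinset ↔ a ∈ P ∨ f a ∈ D := by
      intro a
      rw [Finset.mem_union, Set.Finite.mem_toFinset, Set.mem_ofPred_eq, List.mem_toFinset]
    obtain ⟨B, hB1, hB2, hB3⟩ := hB (P ∪ hfin.toFinset) (insert b Q)
      Finset.subset_union_left (Finset.subset_insert _ _) (by
        rw [Finset.disjoint_left]
        intro a ha hb'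
        rw [hmem] at ha
        rcases Finset.mem_insert.1 hb' with rfl | haQ
        · rcases ha with ha | ha
          · exact hb (Finset.mem_union_left _ ha)
          · exact hcon ha
        · rcases ha with ha | ha
          · exact Finset.disjoint_left.1 hPQ ha haQ
          · exact h3 _ ha ((mQ a).2 haQ))
    have h4 : f (g b) ∈ f '' (g '' B) := by
      refine (hB3 _).2 ⟨D, ?_, h1⟩
      intro y hy
      obtain ⟨a, rfl⟩ := h2 y hy
      exact ⟨a, hB1 a ((hmem a).2 (Or.inr hy)), rfl⟩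
    obtain ⟨_, ⟨b', hb', rfl⟩, e⟩ := h4
    have := hfg e
    subst this
    exact hB2 b' (Finset.mem_insert_self _ _) hb'
  -- admissible axioms which avoid a given finite set
  have c2 : ∀ b, b ∉ P ∪ Q → ∀ E : Finset ℕ, b ∉ E → ∃ D, Ok f W fQ (f (g b)) D ∧
      ∀ e ∈ E, e ∉ P → f e ∉ D := by
    intro b hb E hE
    obtain ⟨B, hB1, hB2, hB3⟩ := hB (insert b P) (Q ∪ (E \ P))
      (Finset.subset_insert _ _) Finset.subset_union_left (by
        rw [Finset.disjoint_left]
        intro a ha hb'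
        rcases Finset.mem_insert.1 ha with rfl | haP
        · rcases Finset.mem_union.1 hb' with h5 | h5
          · exact hb (Finset.mem_union_right _ h5)
          · exact hE (Finset.mem_sdiff.1 h5).1
        · rcases Finset.mem_union.1 hb' with h5 | h5
          · exact Finset.disjoint_left.1 hPQ haP h5
          · exact (Finset.mem_sdiff.1 h5).2 haP)
    have h4 : f (g b) ∈ f '' (g '' B) := ⟨g b, ⟨b, hB1 b (Finset.mem_insert_self _ _), rfl⟩, rfl⟩
    obtain ⟨D, hD, hw⟩ := (hB3 _).1 h4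
    have hD' : ∀ a, f a ∈ D → a ∈ B := by
      intro a ha
      obtain ⟨a', ha', e⟩ := hD _ ha
      exact hf e ▸ ha'
    refine ⟨D, ⟨hw, ?_, ?_⟩, ?_⟩
    · intro z hz
      obtain ⟨a, _, rfl⟩ := hD z hz
      exact ⟨a, rfl⟩
    · intro z hz hzQ
      obtain ⟨a, ha, rfl⟩ := hD z hz
      exact hB2 a (Finset.mem_union_left _ ((mQ a).1 hzQ)) ha
    · intro e he heP hcon
      exact hB2 e (Finset.mem_union_right _ (Finset.mem_sdiff.2 ⟨he, heP⟩)) (hD' e hcon)
  refine ⟨Rel f W tab tabx fP fQ, rel_re hr hW _ _ _ _, ?_⟩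
  intro b y
  constructor
  · rintro (h1 | ⟨h1, ⟨D1, D2⟩, ⟨h2, h3⟩, ⟨_, _, _⟩, h7⟩)
    · exact ((mT b y).1 h1).2
    · have hb : b ∉ P ∪ Q := fun h8 => h1 ((mX b).2 h8)
      rcases h7 (f b) (c1 b hb D1 h2) (c1 b hb D2 h3) with h8 | h8
      · exact absurd (Finset.mem_union_left _ ((mP b).1 h8)) hb
      · exact h8.symm
  · rintro rfl
    by_cases hb : b ∈ P ∪ Q
    · exact Or.inl ((mT b (f b)).2 ⟨hb, rfl⟩)
    · obtain ⟨D1, h2, _⟩ := c2 b hb ∅ (Finset.notMem_empty b)
      have hfin : ({a | f a ∈ D1.toFinset} : Set ℕ).Finite :=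
        (D1.toFinset.finite_toSet).preimage hf.injOn
      obtain ⟨D2, h3, h4⟩ := c2 b hb (hfin.toFinset.erase b) (Finset.notMem_erase b _)
      refine Or.inr ⟨fun h8 => hb ((mX b).1 h8), (D1, D2), ⟨h2, h3⟩,
        ⟨c1 b hb D1 h2, c1 b hb D2 h3, fun h8 => hb (Finset.mem_union_left _ ((mP b).1 h8))⟩,
        ?_⟩
      intro z hz1 hz2
      obtain ⟨a, rfl⟩ := h2.2.1 z hz1
      by_cases haP : a ∈ P
      · exact Or.inl ((mP a).2 haP)
      · right
        by_contra hne
        have hab : a ≠ b := fun e => hne (by rw [e])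
        refine h4 a (Finset.mem_erase.2 ⟨hab, ?_⟩) haP hz2
        rw [Set.Finite.mem_toFinset, Set.mem_ofPred_eq, List.mem_toFinset]
        exact hz1

/-- The sequence of the values of `f` along an orbit of `g` is computable. -/
theorem orbit_comp {f : ℕ → ℕ} (g : ℕ ≃ ℕ) {R : ℕ × ℕ → Prop} (hR : REPred R)
    (h : ∀ b y, R (f (g b), y) ↔ y = f b) (a : ℕ) :
    ∃ σ : ℕ → ℕ, Computable σ ∧ ∀ k, σ k = f ((g.symm)^[k] a) := by
  have hstep : ∀ b y, R (f b, y) ↔ y = f (g.symm b) := by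
    intro b y
    have h1 := h (g.symm b) y
    rwa [g.apply_symm_apply] at h1
  have hR' : REPred fun x : (ℕ × ℕ) × ℕ => R (x.1.2, x.2) :=
    re_comp hR ((Computable.snd.comp Computable.fst).pair Computable.snd)
  obtain ⟨σ, h1, h2, h3, _⟩ := seq (S := ℕ) (R := fun _ s s' => R (s, s')) hR'
    (I := fun s => s ∈ Set.range f) (by
      rintro k s ⟨b, rfl⟩
      exact ⟨f (g.symm b), (hstep b _).2 rfl⟩) (by
      rintro k s s' ⟨b, rfl⟩ hs
      exact ⟨g.symm b, ((hstep b s').1 hs).symm⟩) (f a) ⟨a, rfl⟩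
  refine ⟨σ, h1, ?_⟩
  intro k
  induction k with
  | zero => exact h2
  | succ k ih =>
    have h4 := h3 k
    rw [ih, hstep] at h4
    rw [h4, Function.iterate_succ_apply']

/-! ### The shift -/

/-- The successor on the integers, transported to the natural numbers
(`0, 2, 4, …` are the integers `0, 1, 2, …` and `1, 3, 5, …` are `-1, -2, -3, …`). -/
def up (n : ℕ) : ℕ := if n % 2 = 0 then n + 2 else if n = 1 then 0 else n - 2

/-- The predecessor on the integers, transported to the natural numbers. -/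
def dn (n : ℕ) : ℕ := if n % 2 = 1 then n + 2 else if n = 0 then 1 else n - 2

theorem up_even (k : ℕ) : up (2 * k) = 2 * (k + 1) := by
  unfold up
  rw [if_pos (by omega)]
  omega

theorem up_odd (k : ℕ) : up (2 * (k + 1) + 1) = 2 * k + 1 := by
  unfold up
  rw [if_neg (by omega), if_neg (by omega)]
  omega

theorem dn_odd (k : ℕ) : dn (2 * k + 1) = 2 * (k + 1) + 1 := by
  unfold dn
  rw [if_pos (by omega)]
  omega

theorem dn_even (k : ℕ) : dn (2 * (k + 1)) = 2 * k := by
  unfold dn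
  rw [if_neg (by omega), if_neg (by omega)]
  omega

theorem dn_up (n : ℕ) : dn (up n) = n := by
  rcases Nat.even_or_odd' n with ⟨k, rfl | rfl⟩
  · rw [up_even, dn_even]
  · rcases k with _ | k
    · rfl
    · rw [up_odd, dn_odd]

theorem up_dn (n : ℕ) : up (dn n) = n := by
  rcases Nat.even_or_odd' n with ⟨k, rfl | rfl⟩
  · rcases k with _ | k
    · rfl
    · rw [dn_even, up_even]
  · rw [dn_odd, up_odd]

/-- The shift as a permutation. -/
def shift : ℕ ≃ ℕ := ⟨up, dn, dn_up, up_dn⟩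

theorem comp_sub (k : ℕ) : Computable fun n : ℕ => n - k :=
  (Primrec.nat_sub.comp Primrec.id (Primrec.const k)).to_comp

theorem comp_add (k : ℕ) : Computable fun n : ℕ => n + k :=
  (Primrec.nat_add.comp Primrec.id (Primrec.const k)).to_comp

theorem up_comp : Computable up := by
  refine comp_ite (DMO.dec_eq comp_mod2 (Computable.const 0)) (comp_add 2) ?_
  exact comp_ite (DMO.dec_eq Computable.id (Computable.const 1)) (Computable.const 0)
    (comp_sub 2)

theorem dn_comp : Computable dn := by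
  refine comp_ite (DMO.dec_eq comp_mod2 (Computable.const 1)) (comp_add 2) ?_
  exact comp_ite (DMO.dec_eq Computable.id (Computable.const 0)) (Computable.const 1)
    (comp_sub 2)

theorem up_iter (k : ℕ) : up^[k] 0 = 2 * k := by
  induction k with
  | zero => rfl
  | succ k ih => rw [Function.iterate_succ_apply', ih, up_even]

theorem dn_iter (k : ℕ) : dn^[k + 1] 0 = 2 * k + 1 := by
  induction k with
  | zero => rfl
  | succ k ih => rw [Function.iterate_succ_apply', ih, dn_odd]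

/-- THEOREM 1. An injection which preserves enumeration reducibility is computable. -/
theorem computable_of_preserving {f : ℕ → ℕ} (hf : Function.Injective f)
    (h : ∀ A B : Set ℕ, ERed A B → ERed (f '' A) (f '' B)) : Computable f := by
  have hr : REPred fun x => x ∈ Set.range f := by
    have h1 : ERed (f '' Set.univ) (f '' ∅) := h _ _ ((le_empty_iff _).2 re_univ)
    rw [Set.image_empty, le_empty_iff] at h1
    exact h1.of_eq fun x => by rw [Set.image_univ]
  obtain ⟨R1, hR1, h1⟩ := core hf hr shift fun B => h _ _ (image_le up_comp B)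
  obtain ⟨R2, hR2, h2⟩ := core hf hr shift.symm fun B => h _ _ (image_le dn_comp B)
  obtain ⟨τ, hτ, hτ'⟩ := orbit_comp shift hR1 h1 0
  obtain ⟨σ, hσ, hσ'⟩ := orbit_comp shift.symm hR2 h2 0
  have h3 : Computable fun n : ℕ => if n % 2 = 0 then σ (n / 2) else τ (n / 2 + 1) :=
    comp_ite (DMO.dec_eq comp_mod2 (Computable.const 0)) (hσ.comp comp_div2)
      (hτ.comp (Computable.succ.comp comp_div2))
  refine h3.of_eq fun n => ?_
  have e1 : ∀ k, σ k = f (2 * k) := by
    intro k
    rw [hσ' k, ← up_iter k]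
    rfl
  have e2 : ∀ k, τ (k + 1) = f (2 * k + 1) := by
    intro k
    rw [hτ' (k + 1), ← dn_iter k]
    rfl
  by_cases hn : n % 2 = 0
  · rw [if_pos hn, e1]
    congr 1
    omega
  · rw [if_neg hn, e2]
    congr 1
    omega

end Pool.Agent.EDG
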