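import Pool.Agent.EDG.Core

set_option autoImplicit false

/-!
# The enumeration degrees (for MP_431ff4_lc)
-/

namespace Pool.Agent.EDG

open Pool.Agent.CeerI Pool.Agent.DMO

/-- The finite set with the canonical index `n`: the positions of the digits `1` in the binary
expansion of `n`. -/
def fset (n : ℕ) : Set ℕ := {d | n.testBit d = true}

/-- Enumeration reducibility `A ≤ₑ B`: there is a c.e. set `W` such that `x ∈ A` iff some finite
subset of `B`, with canonical index `n`, satisfies `⟨x, n⟩ ∈ W`. -/
def EnumRed (A B : Set ℕ) : Prop :=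
  ∃ W : ℕ → Prop, REPred W ∧ ∀ x, x ∈ A ↔ ∃ n, fset n ⊆ B ∧ W (Nat.pair x n)

section

variable {α : Type} [Primcodable α]

theorem dec_bit {n d : α → ℕ} (hn : Computable n) (hd : Computable d) :
    ComputablePred fun a => (n a).testBit (d a) = true := by
  have hpow : Computable fun a => 2 ^ d a :=
    (Primrec₂.unpaired'.1 Nat.Primrec.pow).to_comp.comp (Computable.const 2) hd
  have hdiv : Computable fun a => n a / 2 ^ d a := Primrec.nat_div.to_comp.comp hn hpow
  have hmod : Computable fun a => n a / 2 ^ d a % 2 :=
    Primrec.nat_mod.to_comp.comp hdiv (Computable.const 2)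
  refine dec_of_iff (DMO.dec_eq hmod (Computable.const 1)) fun a => ?_
  rw [Nat.testBit_eq_decide_div_mod_eq]
  simp

end

theorem bit_lt {n d : ℕ} (h : n.testBit d = true) : d < n :=
  lt_of_lt_of_le Nat.lt_two_pow_self (Nat.ge_two_pow_of_testBit h)

/-- Every list of numbers is a finite set with a canonical index. -/
theorem exists_index (l : List ℕ) : ∃ n : ℕ, ∀ d, d ∈ fset n ↔ d ∈ l := by
  induction l with
  | nil => exact ⟨0, fun d => by simp [fset]⟩
  | cons a l ih =>
    obtain ⟨n, hn⟩ := ih
    refine ⟨2 ^ a ||| n, fun d => ?_⟩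
    have h1 := hn d
    simp only [fset, Set.mem_ofPred_eq] at h1 ⊢
    rw [Nat.testBit_or, Bool.or_eq_true, Nat.testBit_two_pow, h1, List.mem_cons,
      decide_eq_true_iff]
    exact or_congr_left eq_comm

/-- The list of the elements of a finite set. -/
theorem exists_list (n : ℕ) : ∃ l : List ℕ, ∀ d, d ∈ l ↔ d ∈ fset n := by
  refine ⟨(List.range n).filter fun d => n.testBit d, fun d => ?_⟩
  rw [List.mem_filter, List.mem_range]
  exact ⟨fun h => h.2, fun h => ⟨bit_lt h, h⟩⟩

theorem enumRed_iff (A B : Set ℕ) : EnumRed A B ↔ ERed A B := by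
  constructor
  · rintro ⟨W, hW, hA⟩
    refine ⟨fun p => ∃ n : ℕ, W (Nat.pair p.1 n) ∧ ∀ d < n, n.testBit d = true → d ∈ p.2,
      ?_, ?_⟩
    · refine DMO.re_exists (α := ℕ × List ℕ) (β := ℕ) (p := fun q => W (Nat.pair q.1.1 q.2) ∧
        ∀ d < q.2, q.2.testBit d = true → d ∈ q.1.2) (re_and (re_comp hW ?_) (dec_re
          (dec_ball (p := fun r : ((ℕ × List ℕ) × ℕ) × ℕ =>
            r.1.2.testBit r.2 = true → r.2 ∈ r.1.1.2) (dec_imp ?_ ?_) Computable.snd)))
      · exact Primrec₂.natPair.to_comp.comp (Computable.fst.comp Computable.fst)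
          Computable.snd
      · exact dec_bit (Computable.snd.comp Computable.fst) Computable.snd
      · exact dec_mem (Computable.snd.comp (Computable.fst.comp Computable.fst))
          Computable.snd
    · intro x
      rw [hA x]
      constructor
      · rintro ⟨n, hn, hw⟩
        obtain ⟨l, hl⟩ := exists_list n
        exact ⟨l, fun y hy => hn ((hl y).1 hy), n, hw, fun d _ hd => (hl d).2 hd⟩
      · rintro ⟨l, hl, n, hw, hn⟩
        exact ⟨n, fun d hd => hl d (hn d (bit_lt hd) hd), hw⟩
  · rintro ⟨W, hW, hA⟩
    refine ⟨fun p => ∃ l : List ℕ, W (p.unpair.1, l) ∧ ∀ y ∈ l, p.unpair.2.testBit y = true,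
      ?_, ?_⟩
    · refine DMO.re_exists (α := ℕ) (β := List ℕ) (p := fun q => W (q.1.unpair.1, q.2) ∧
        ∀ y ∈ q.2, q.1.unpair.2.testBit y = true) (re_and (re_comp hW ?_) (dec_re
          (dec_all (p := fun r : (ℕ × List ℕ) × ℕ => r.1.1.unpair.2.testBit r.2 = true)
            Computable.snd ?_)))
      · exact (Computable.fst.comp (Computable.unpair.comp Computable.fst)).pair
          Computable.snd
      · exact dec_bit (Computable.snd.comp (Computable.unpair.comp
          (Computable.fst.comp Computable.fst))) Computable.snd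
    · intro x
      rw [hA x]
      constructor
      · rintro ⟨l, hl, hw⟩
        obtain ⟨n, hn⟩ := exists_index l
        refine ⟨n, fun d hd => hl d ((hn d).1 hd), l, ?_, fun y hy => ?_⟩
        · rw [Nat.unpair_pair]; exact hw
        · rw [Nat.unpair_pair]; exact (hn y).2 hy
      · rintro ⟨n, hn, l, hw, hl⟩
        rw [Nat.unpair_pair] at hw hl
        exact ⟨l, fun y hy => hn (hl y hy), hw⟩

/-- Sets of natural numbers, preordered by enumeration reducibility. -/
def ESet : Type := Set ℕ

instance : Preorder ESet where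
  le A B := EnumRed A B
  le_refl A := (enumRed_iff A A).2 (ERed.refl A)
  le_trans A B C h1 h2 :=
    (enumRed_iff A C).2 (((enumRed_iff A B).1 h1).trans ((enumRed_iff B C).1 h2))

/-- The ordered set of the enumeration degrees. -/
abbrev EDeg : Type := Antisymmetrization ESet (· ≤ ·)

/-- The enumeration degree of a set. -/
def deg (A : Set ℕ) : EDeg := toAntisymmetrization (α := ESet) (· ≤ ·) A

theorem deg_le {A B : Set ℕ} : deg A ≤ deg B ↔ ERed A B := by
  rw [← enumRed_iff]
  exact toAntisymmetrization_le_toAntisymmetrization_iff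

theorem deg_eq {A B : Set ℕ} : deg A = deg B ↔ ERed A B ∧ ERed B A := by
  constructor
  · intro h
    exact ⟨deg_le.1 h.le, deg_le.1 h.ge⟩
  · rintro ⟨h1, h2⟩
    exact le_antisymm (deg_le.2 h1) (deg_le.2 h2)

/-! ### Finite changes -/

/-- Shifts of sets. -/
theorem shift_le (A : Set ℕ) (K : ℕ) : ERed {n | n + K ∈ A} A := by
  refine ⟨fun p => p.2 = [p.1 + K], ?_, ?_⟩
  · refine dec_re (DMO.dec_eq Computable.snd ?_)
    exact Computable.list_cons.comp ((comp_add K).comp Computable.fst) (Computable.const [])
  · intro x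
    constructor
    · intro hx
      exact ⟨[x + K], by simpa using hx, rfl⟩
    · rintro ⟨D, hD, h1⟩
      have h1' : D = [x + K] := h1
      exact hD (x + K) (by rw [h1']; simp)

theorem le_shift (A : Set ℕ) (K : ℕ) : ERed A {n | n + K ∈ A} := by
  classical
  let F : List ℕ := (List.range K).filter fun n => decide (n ∈ A)
  refine ⟨fun p => (p.1 ∈ F) ∨ (K ≤ p.1 ∧ p.2 = [p.1 - K]), ?_, ?_⟩
  · refine dec_re (dec_or (dec_mem (Computable.const F) Computable.fst) (dec_and ?_ ?_))
    · exact DMO.dec_le (Computable.const K) Computable.fst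
    · refine DMO.dec_eq Computable.snd ?_
      exact Computable.list_cons.comp ((comp_sub K).comp Computable.fst) (Computable.const [])
  · intro x
    constructor
    · intro hx
      by_cases hK : K ≤ x
      · refine ⟨[x - K], ?_, Or.inr ⟨hK, rfl⟩⟩
        intro y hy
        rw [List.mem_singleton] at hy
        subst hy
        show x - K + K ∈ A
        rw [Nat.sub_add_cancel hK]
        exact hx
      · refine ⟨[], by simp, Or.inl ?_⟩
        show x ∈ (List.range K).filter fun n => decide (n ∈ A)
        rw [List.mem_filter, List.mem_range]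
        exact ⟨by omega, by simpa using hx⟩
    · rintro ⟨D, hD, h1 | ⟨h1, h2⟩⟩
      · have h2 : x ∈ (List.range K).filter fun n => decide (n ∈ A) := h1
        rw [List.mem_filter] at h2
        simpa using h2.2
      · have h1' : K ≤ x := h1
        have h2' : D = [x - K] := h2
        have h3 : x - K + K ∈ A := hD (x - K) (by rw [h2']; simp)
        rwa [Nat.sub_add_cancel h1'] at h3

/-- A function which is computable from some point on is computable. -/
theorem comp_of_tail {f : ℕ → ℕ} (K : ℕ) (h : Computable fun n => f (n + K)) :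
    Computable f := by
  have h1 : Computable fun n : ℕ =>
      if n < K then (((List.range K).map f)).getD n 0 else f (n - K + K) :=
    comp_ite (DMO.dec_lt Computable.id (Computable.const K))
      (comp_getD (Computable.const _) Computable.id) (h.comp (comp_sub K))
  refine h1.of_eq fun n => ?_
  by_cases hn : n < K
  · rw [if_pos hn, List.getD_eq_getElem _ _ (by simpa using hn)]
    simp
  · rw [if_neg hn, Nat.sub_add_cancel (by omega)]

end Pool.Agent.EDG
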