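import Pool.Agent.EDG.Deg

set_option autoImplicit false

/-!
# Degree maps induced by functions (for MP_431ff4_lc)
-/

namespace Pool.Agent.EDG

open Pool.Agent.CeerI Pool.Agent.DMO

/-- Only finitely many values of `f` are repeated values. -/
theorem finite_repeats {f : ℕ → ℕ}
    (h : ∀ A B : Set ℕ, ERed (f '' A) (f '' B) → ERed (f '' B) (f '' A) → ERed A B) :
    {n | ∃ m < n, f m = f n}.Finite := by
  classical
  by_contra hinf
  have hN : {n | ∃ m < n, f m = f n}.Infinite := hinf
  let e : ℕ ↪ {n | ∃ m < n, f m = f n} := Set.Infinite.natEmbedding _ hN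
  -- every value is taken outside of the set of the repeats
  have hmin : ∀ n, ∃ m, (¬ ∃ k < m, f k = f m) ∧ f m = f n := by
    intro n
    have hex : ∃ m, f m = f n := ⟨n, rfl⟩
    refine ⟨Nat.find hex, ?_, Nat.find_spec hex⟩
    rintro ⟨k, hk, he⟩
    exact Nat.find_min hex hk (he.trans (Nat.find_spec hex))
  let A : Set ℕ → Set ℕ := fun X => {m | ∀ n, (e n : ℕ) = m → n ∈ X}
  have himg : ∀ X, f '' A X = f '' Set.univ := by
    intro X
    refine Set.Subset.antisymm (Set.image_mono (Set.subset_univ _)) ?_
    rintro _ ⟨n, _, rfl⟩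
    obtain ⟨m, h1, h2⟩ := hmin n
    refine ⟨m, ?_, h2⟩
    intro k hk
    exact absurd (hk ▸ (e k).2) h1
  have hre : ∀ X, REPred fun x => x ∈ A X := by
    intro X
    rw [← le_empty_iff]
    have h1 : ERed (A X) Set.univ :=
      h _ _ (by rw [himg X]; exact ERed.refl _) (by rw [himg X]; exact ERed.refl _)
    exact h1.trans ((le_empty_iff _).2 re_univ)
  have hcode : ∀ X, ∃ c : Nat.Partrec.Code, ∀ a, a ∈ A X ↔ (c.eval (Encodable.encode a)).Dom :=
    fun X => exists_code (hre X)
  choose c hc using hcode
  have hinj : Function.Injective fun X : Set ℕ => Encodable.encode (c X) := by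
    intro X Y hXY
    have h1 : c X = c Y := Encodable.encode_injective hXY
    have h2 : ∀ X n, n ∈ X ↔ ((e n : ℕ) ∈ A X) := by
      intro X n
      constructor
      · intro hn k hk
        have : k = n := e.injective (Subtype.ext hk)
        rwa [this]
      · intro hn
        exact hn n rfl
    ext n
    rw [h2 X, h2 Y, hc X, hc Y, h1]
  exact Function.cantor_injective _ hinj

/-- THEOREM 2. A monotone injective map of the enumeration degrees which is induced by a
function is the identity, and the function is computable. -/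
theorem induced (π : EDeg → EDeg) (hm : Monotone π) (hi : Function.Injective π) (f : ℕ → ℕ)
    (h : ∀ A : Set ℕ, π (deg A) = deg (f '' A)) : π = id ∧ Computable f := by
  have hpres : ∀ A B : Set ℕ, ERed A B → ERed (f '' A) (f '' B) := by
    intro A B hAB
    have h1 := hm (deg_le.2 hAB)
    rw [h, h] at h1
    exact deg_le.1 h1
  have hrefl : ∀ A B : Set ℕ, ERed (f '' A) (f '' B) → ERed (f '' B) (f '' A) → ERed A B := by
    intro A B h1 h2
    have h3 : deg (f '' A) = deg (f '' B) := deg_eq.2 ⟨h1, h2⟩
    rw [← h, ← h] at h3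
    exact (deg_eq.1 (hi h3)).1
  obtain ⟨K, hK⟩ := (finite_repeats hrefl).bddAbove
  -- `f` is injective from `K + 1` on
  have hinj : Function.Injective fun n => f (n + (K + 1)) := by
    intro a b hab
    have hab' : f (a + (K + 1)) = f (b + (K + 1)) := hab
    rcases lt_trichotomy a b with h1 | h1 | h1
    · have := hK (show b + (K + 1) ∈ {n | ∃ m < n, f m = f n} from
        ⟨a + (K + 1), by omega, hab'⟩)
      omega
    · exact h1
    · have := hK (show a + (K + 1) ∈ {n | ∃ m < n, f m = f n} from
        ⟨b + (K + 1), by omega, hab'.symm⟩)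
      omega
  have hcs : Computable fun n : ℕ => n + (K + 1) := comp_add (K + 1)
  have hsi : Function.Injective fun n : ℕ => n + (K + 1) := add_left_injective (K + 1)
  have himg : ∀ A : Set ℕ, (fun n => f (n + (K + 1))) '' A =
      f '' ((fun n => n + (K + 1)) '' A) := fun A => (Set.image_image _ _ _).symm
  have hfc : Computable fun n => f (n + (K + 1)) := by
    refine computable_of_preserving hinj ?_
    intro A B hAB
    rw [himg, himg]
    exact hpres _ _ (((image_le hcs A).trans hAB).trans (le_image hcs hsi B))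
  refine ⟨?_, comp_of_tail _ hfc⟩
  funext d
  obtain ⟨A, rfl⟩ : ∃ A : Set ℕ, deg A = d := by
    induction d using Antisymmetrization.ind with
    | _ a => exact ⟨a, rfl⟩
  show π (deg A) = deg A
  have e1 : deg A = deg {n | n + (K + 1) ∈ A} := deg_eq.2 ⟨le_shift A _, shift_le A _⟩
  have e2 : deg {n | n + (K + 1) ∈ A} =
      deg ((fun n => n + (K + 1)) '' {n | n + (K + 1) ∈ A}) :=
    deg_eq.2 ⟨le_image hcs hsi _, image_le hcs _⟩
  have e3 : deg ((fun n => f (n + (K + 1))) '' {n | n + (K + 1) ∈ A}) =
      deg {n | n + (K + 1) ∈ A} :=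
    deg_eq.2 ⟨image_le hfc _, le_image hfc hinj _⟩
  calc π (deg A) = π (deg ((fun n => n + (K + 1)) '' {n | n + (K + 1) ∈ A})) := by
        rw [e1, e2]
    _ = deg (f '' ((fun n => n + (K + 1)) '' {n | n + (K + 1) ∈ A})) := h _
    _ = deg ((fun n => f (n + (K + 1))) '' {n | n + (K + 1) ∈ A}) := by rw [himg]
    _ = deg {n | n + (K + 1) ∈ A} := e3
    _ = deg A := e1.symm

end Pool.Agent.EDG
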