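import Pool.Agent.DMO.Tool

set_option autoImplicit false

/-!
# Enumeration reducibility: tools (for MP_431ff4_lc)
-/

namespace Pool.Agent.EDG

open Pool.Agent.CeerI Pool.Agent.DMO

section

variable {α : Type} [Primcodable α]

theorem comp_getD {l : α → List ℕ} (hl : Computable l) {n : α → ℕ} (hn : Computable n) :
    Computable fun a => (l a).getD (n a) 0 :=
  (Primrec.list_getD (α := ℕ) 0).to_comp.comp hl hn

theorem comp_len {l : α → List ℕ} (hl : Computable l) : Computable fun a => (l a).length :=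
  Primrec.list_length.to_comp.comp hl

theorem mem_iff_getD (l : List ℕ) (y : ℕ) : y ∈ l ↔ ∃ i < l.length, l.getD i 0 = y := by
  constructor
  · intro h
    obtain ⟨i, hi, he⟩ := List.getElem_of_mem h
    exact ⟨i, hi, by rw [List.getD_eq_getElem _ _ hi, he]⟩
  · rintro ⟨i, hi, he⟩
    rw [List.getD_eq_getElem _ _ hi] at he
    rw [← he]
    exact List.getElem_mem hi

/-- Membership in a computable list. -/
theorem dec_mem {l : α → List ℕ} (hl : Computable l) {f : α → ℕ} (hf : Computable f) :
    ComputablePred fun a => f a ∈ l a := by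
  have h1 : ComputablePred fun q : α × ℕ => (l q.1).getD q.2 0 = f q.1 :=
    DMO.dec_eq (comp_getD (hl.comp Computable.fst) Computable.snd) (hf.comp Computable.fst)
  refine dec_of_iff (dec_bex h1 (comp_len hl)) fun a => ?_
  rw [mem_iff_getD]

/-- Quantifier over the members of a computable list. -/
theorem dec_all {l : α → List ℕ} (hl : Computable l) {p : α × ℕ → Prop}
    (hp : ComputablePred p) : ComputablePred fun a => ∀ y ∈ l a, p (a, y) := by
  have h1 : ComputablePred fun q : α × ℕ => p (q.1, (l q.1).getD q.2 0) :=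
    dec_comp hp (Computable.fst.pair (comp_getD (hl.comp Computable.fst) Computable.snd))
  refine dec_of_iff (dec_ball h1 (comp_len hl)) fun a => ?_
  constructor
  · intro h i hi
    exact h _ ((mem_iff_getD _ _).2 ⟨i, hi, rfl⟩)
  · intro h y hy
    obtain ⟨i, hi, rfl⟩ := (mem_iff_getD _ _).1 hy
    exact h i hi

theorem re_all {l : α → List ℕ} (hl : Computable l) {p : α × ℕ → Prop}
    (hp : REPred p) : REPred fun a => ∀ y ∈ l a, p (a, y) := by
  have h1 : REPred fun q : α × ℕ => p (q.1, (l q.1).getD q.2 0) :=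
    re_comp hp (Computable.fst.pair (comp_getD (hl.comp Computable.fst) Computable.snd))
  refine (re_ball h1 (comp_len hl)).of_eq fun a => ?_
  constructor
  · intro h y hy
    obtain ⟨i, hi, rfl⟩ := (mem_iff_getD _ _).1 hy
    exact h i hi
  · intro h i hi
    exact h _ ((mem_iff_getD _ _).2 ⟨i, hi, rfl⟩)

end

/-! ### Enumeration reducibility -/

/-- `A ≤ₑ B`: for some c.e. set `W` of pairs `(x, D)`, `D` a finite list of numbers, `x` is in `A`
iff there is a pair `(x, D)` in `W` all of whose members of `D` are in `B`. -/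
def ERed (A B : Set ℕ) : Prop :=
  ∃ W : ℕ × List ℕ → Prop, REPred W ∧
    ∀ x, x ∈ A ↔ ∃ D : List ℕ, (∀ y ∈ D, y ∈ B) ∧ W (x, D)

theorem ERed.refl (A : Set ℕ) : ERed A A := by
  refine ⟨fun p => p.1 ∈ p.2 ∧ ∀ y ∈ p.2, y = p.1, ?_, ?_⟩
  · refine dec_re (dec_and (dec_mem Computable.snd Computable.fst) ?_)
    exact dec_all Computable.snd
      (DMO.dec_eq Computable.snd (Computable.fst.comp Computable.fst))
  · intro x
    constructor
    · intro hx
      exact ⟨[x], by simpa using hx, by simp⟩
    · rintro ⟨D, h1, h2, _⟩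
      exact h1 x h2

theorem ERed.trans {A B C : Set ℕ} (h1 : ERed A B) (h2 : ERed B C) : ERed A C := by
  obtain ⟨W, hW, hA⟩ := h1
  obtain ⟨V, hV, hB⟩ := h2
  refine ⟨fun p => ∃ D : List ℕ, W (p.1, D) ∧
    ∀ y ∈ D, ∃ E : List ℕ, V (y, E) ∧ ∀ z ∈ E, z ∈ p.2, ?_, ?_⟩
  · -- the inner part, as a predicate of `((p, D), y), E`
    have e1 : REPred fun q : (((ℕ × List ℕ) × List ℕ) × ℕ) × List ℕ =>
        V (q.1.2, q.2) ∧ ∀ z ∈ q.2, z ∈ q.1.1.1.2 := by
      refine re_and (re_comp hV ?_) (dec_re ?_)
      · exact (Computable.snd.comp Computable.fst).pair Computable.snd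
      · refine dec_all (p := fun r : ((((ℕ × List ℕ) × List ℕ) × ℕ) × List ℕ) × ℕ =>
          r.2 ∈ r.1.1.1.1.2) Computable.snd (dec_mem ?_ Computable.snd)
        exact Computable.snd.comp (Computable.fst.comp (Computable.fst.comp
          (Computable.fst.comp Computable.fst)))
    have e2 : REPred fun q : ((ℕ × List ℕ) × List ℕ) × ℕ =>
        ∃ E : List ℕ, V (q.2, E) ∧ ∀ z ∈ E, z ∈ q.1.1.2 := DMO.re_exists e1
    have e3 : REPred fun q : (ℕ × List ℕ) × List ℕ => W (q.1.1, q.2) ∧
        ∀ y ∈ q.2, ∃ E : List ℕ, V (y, E) ∧ ∀ z ∈ E, z ∈ q.1.2 := by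
      refine re_and (re_comp hW ?_) (re_all Computable.snd e2)
      exact (Computable.fst.comp Computable.fst).pair Computable.snd
    exact DMO.re_exists e3
  · intro x
    constructor
    · intro hx
      obtain ⟨D, hD, hw⟩ := (hA x).1 hx
      have h3 : ∀ y, ∃ E : List ℕ, y ∈ D → (∀ z ∈ E, z ∈ C) ∧ V (y, E) := by
        intro y
        by_cases hy : y ∈ D
        · obtain ⟨E, hE⟩ := (hB y).1 (hD y hy)
          exact ⟨E, fun _ => hE⟩
        · exact ⟨[], fun h => absurd h hy⟩
      choose E hE using h3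
      refine ⟨D.flatMap E, ?_, D, hw, ?_⟩
      · intro z hz
        obtain ⟨y, hy, hz'⟩ := List.mem_flatMap.1 hz
        exact (hE y hy).1 z hz'
      · intro y hy
        exact ⟨E y, (hE y hy).2, fun z hz => List.mem_flatMap.2 ⟨y, hy, hz⟩⟩
    · rintro ⟨L, hL, D, hw, hD⟩
      refine (hA x).2 ⟨D, ?_, hw⟩
      intro y hy
      obtain ⟨E, hv, hE⟩ := hD y hy
      exact (hB y).2 ⟨E, fun z hz => hL z (hE z hz), hv⟩

/-- Images under computable functions. -/
theorem image_le {u : ℕ → ℕ} (hu : Computable u) (A : Set ℕ) : ERed (u '' A) A := by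
  refine ⟨fun p => ∃ y : ℕ, p.2 = [y] ∧ u y = p.1, ?_, ?_⟩
  · have e1 : ComputablePred fun q : (ℕ × List ℕ) × ℕ => q.1.2 = [q.2] ∧ u q.2 = q.1.1 := by
      refine dec_and (DMO.dec_eq (Computable.snd.comp Computable.fst) ?_)
        (DMO.dec_eq (hu.comp Computable.snd) (Computable.fst.comp Computable.fst))
      exact Computable.list_cons.comp Computable.snd (Computable.const [])
    exact DMO.re_exists (dec_re e1)
  · intro x
    constructor
    · rintro ⟨y, hy, rfl⟩
      exact ⟨[y], by simpa using hy, y, rfl, rfl⟩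
    · rintro ⟨D, hD, y, h1, h2⟩
      have h1' : D = [y] := h1
      have h2' : u y = x := h2
      exact ⟨y, hD y (by rw [h1']; simp), h2'⟩

theorem le_image {u : ℕ → ℕ} (hu : Computable u) (hi : Function.Injective u) (A : Set ℕ) :
    ERed A (u '' A) := by
  refine ⟨fun p => p.2 = [u p.1], ?_, ?_⟩
  · refine dec_re (DMO.dec_eq Computable.snd ?_)
    exact Computable.list_cons.comp (hu.comp Computable.fst) (Computable.const [])
  · intro x
    constructor
    · intro hx
      exact ⟨[u x], by simpa using ⟨x, hx, rfl⟩, rfl⟩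
    · rintro ⟨D, hD, h1⟩
      have h1' : D = [u x] := h1
      obtain ⟨a, ha, he⟩ := hD (u x) (by rw [h1']; simp)
      rw [← hi he]
      exact ha

/-- Sets below the empty set are c.e., and conversely. -/
theorem le_empty_iff (A : Set ℕ) : ERed A ∅ ↔ REPred fun x => x ∈ A := by
  constructor
  · rintro ⟨W, hW, hA⟩
    have h1 : REPred fun x : ℕ => W (x, []) :=
      re_comp hW (Computable.id.pair (Computable.const []))
    refine h1.of_eq fun x => ?_
    rw [hA x]
    constructor
    · intro h
      exact ⟨[], by simp, h⟩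
    · rintro ⟨D, hD, h⟩
      have : D = [] := List.eq_nil_iff_forall_not_mem.2 fun y hy => hD y hy
      rw [this] at h
      exact h
  · intro h
    refine ⟨fun p => p.1 ∈ A ∧ p.2 = [], ?_, ?_⟩
    · exact re_and (re_comp h Computable.fst)
        (dec_re (DMO.dec_eq Computable.snd (Computable.const [])))
    · intro x
      constructor
      · intro hx
        exact ⟨[], by simp, hx, rfl⟩
      · rintro ⟨_, _, hx, _⟩
        exact hx

theorem re_univ : REPred fun x : ℕ => x ∈ (Set.univ : Set ℕ) := by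
  have h := dec_re (DMO.dec_eq (Computable.id (α := ℕ)) (Computable.id (α := ℕ)))
  exact h.of_eq fun x => by simp

end Pool.Agent.EDG
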